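import Pool.Agent.N922.PQ.Lat

set_option autoImplicit false

/-!
Part NF of project PQ: the normal form of indefinite unimodular ternary forms with control of the size.
-/

open Matrix

namespace Pool.Agent.N368.PQ

open Pool.Agent.N922.PQ

/-- an integer of absolute value less than one is zero -/
theorem zero_of_lt {z : ℤ} (h : |(z : ℝ)| < 1) : z = 0 := by
  have h1 : |z| < 1 := by exact_mod_cast h
  exact Int.abs_lt_one_iff.1 h1

/-- a nonzero integer has absolute value at least one -/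
theorem one_le_of_ne {z : ℤ} (h : z ≠ 0) : 1 ≤ |(z : ℝ)| := by
  have h1 : 1 ≤ |z| := Int.one_le_abs h
  exact_mod_cast h1

theorem case2 (G : Matrix (Fin 3) (Fin 3) ℤ) (h : Fin 3 → ℝ) (hs : G.IsSymm) (hd : G.det = -1)
    (hp : ∀ i, 0 < h i) (hm : Monotone h) (h8 : h 0 * h 1 * h 2 ≤ 8) (hG : ∀ i j, |(G i j : ℝ)| ≤ h i * h j)
    (h0 : h 0 < 1 / 8) :
    ∃ (m : ℕ) (U : Matrix (Fin 3) (Fin 3) ℤ), IsUnit U.det ∧ U * G * Uᵀ = JJ ∧
      (∑ j, |(U 0 j : ℝ)| * h j ≤ 1 / 2 ^ m) ∧ (∑ j, |(U 1 j : ℝ)| * h j ≤ 17) ∧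
      (∑ j, |(U 2 j : ℝ)| * h j ≤ 86 * 2 ^ m) := by
  have hp0 := hp 0
  have hp1 := hp 1
  have hp2 := hp 2
  have h12 : h 1 ≤ h 2 := hm (by decide)
  have h01 : h 0 ≤ h 1 := hm (by decide)
  have g00 : G 0 0 = 0 := by
    apply zero_of_lt
    have := hG 0 0
    nlinarith
  have g01 : G 0 1 = 0 := by
    by_contra hne
    have h1 := one_le_of_ne hne
    have h2 := h1.trans (hG 0 1)
    have h3 : 8 < h 1 := by nlinarith
    nlinarith
  have s10 : G 1 0 = G 0 1 := hs.apply 0 1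
  have s20 : G 2 0 = G 0 2 := hs.apply 0 2
  have s21 : G 2 1 = G 1 2 := hs.apply 1 2
  have hdet : G 0 2 * G 0 2 * G 1 1 = 1 := by
    rw [Matrix.det_fin_three, s10, s20, s21, g00, g01] at hd
    linarith
  obtain ⟨ε, hε⟩ : ∃ ε, ε = G 0 2 := ⟨_, rfl⟩
  obtain ⟨c, hc⟩ : ∃ c, c = G 1 2 := ⟨_, rfl⟩
  rw [← hε] at hdet s20
  have hεu : IsUnit (ε * ε) := IsUnit.of_mul_eq_one _ hdet
  have hεε : ε = 1 ∨ ε = -1 := Int.isUnit_iff.1 (isUnit_of_mul_isUnit_left hεu)
  have hε2 : ε * ε = 1 := by rcases hεε with h | h <;> rw [h] <;> norm_num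
  have g11 : G 1 1 = 1 := by
    rw [hε2, one_mul] at hdet
    exact hdet
  have hεabs : |(ε : ℝ)| = 1 := by rcases hεε with h | h <;> rw [h] <;> norm_num
  -- the sizes
  have h1one : 1 ≤ h 1 := by
    have := hG 1 1
    rw [g11] at this
    norm_num at this
    nlinarith
  have h02 : 1 ≤ h 0 * h 2 := by
    have := hG 0 2
    rw [← hε, hεabs] at this
    exact this
  have h1le : h 1 ≤ 8 := by nlinarith
  have h02le : h 0 * h 2 ≤ 8 := by nlinarith
  have hc8 : |(c : ℝ)| * h 0 ≤ 8 := by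
    have h1 := hG 1 2
    rw [← hc] at h1
    nlinarith
  -- the remainder
  obtain ⟨t, r, htr, hr⟩ : ∃ t r : ℤ, G 2 2 = 2 * t + r ∧ (r = 0 ∨ r = 1) :=
    ⟨G 2 2 / 2, G 2 2 % 2, by omega, by omega⟩
  have ht : |(t : ℝ)| * 2 ≤ h 2 * h 2 + 1 := by
    have h1 := hG 2 2
    have h2 : |(2 * t : ℤ)| ≤ |G 2 2| + 1 := by
      rcases hr with hr | hr <;> rw [htr, hr] <;> rcases abs_cases (2 * t) with h | h <;>
        rcases abs_cases (2 * t + 0) with h' | h' <;> rcases abs_cases (2 * t + 1) with h'' | h'' <;> omega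
    have h3 : |((2 * t : ℤ) : ℝ)| ≤ |(G 2 2 : ℝ)| + 1 := by exact_mod_cast h2
    rw [Int.cast_mul, abs_mul] at h3
    norm_num at h3
    linarith
  have ht0 : |(t : ℝ)| * h 0 ≤ 4 * h 2 + 1 / 16 := by nlinarith
  have hrabs : |(r : ℝ)| ≤ 1 := by rcases hr with h | h <;> rw [h] <;> norm_num
  obtain ⟨m, hm1, hm2⟩ := exists_nat_pow_near (x := 1 / h 0) (y := 2) (by
    rw [le_div_iff₀ hp0]
    linarith) (by norm_num)
  have hP : (0 : ℝ) < 2 ^ m := by positivity
  have e1 : h 0 ≤ 1 / 2 ^ m := by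
    rw [le_div_iff₀ hp0] at hm1
    rw [le_div_iff₀ hP]
    linarith
  have e2 : 1 < 2 ^ (m + 1) * h 0 := by
    rw [div_lt_iff₀ hp0] at hm2
    exact hm2
  rw [pow_succ] at e2
  have h2le : h 2 ≤ 16 * 2 ^ m := by nlinarith
  have hPm : 4 ≤ (2 : ℝ) ^ m := by nlinarith
  refine ⟨m, !![1, 0, 0; -(ε * c) - r, 1, 0; -t - r * (ε * c) - r, r, ε], ?_, ?_, ?_, ?_, ?_⟩
  · rw [Matrix.det_fin_three]
    simp
    rcases hεε with h | h <;> rw [h] <;> simp
  · have hGm : G = !![0, 0, ε; 0, 1, c; ε, c, 2 * t + r] := by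
      ext i j
      fin_cases i <;> fin_cases j <;> simp [g00, g01, s10, s20, s21, g11, htr, ← hε, ← hc]
    rw [hGm, JJ]
    ext i j
    rcases hεε with h | h <;> rcases hr with h' | h' <;> rw [h, h'] <;> fin_cases i <;> fin_cases j <;>
      simp [Matrix.mul_apply, Fin.sum_univ_three] <;> ring
  · rw [Fin.sum_univ_three]
    simp
    simpa using e1
  · rw [Fin.sum_univ_three]
    simp only [Matrix.of_apply, Matrix.cons_val_zero, Matrix.cons_val_one, Matrix.cons_val, Int.cast_sub, Int.cast_neg,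
      Int.cast_mul, Int.cast_one, Int.cast_zero, abs_one, abs_zero, one_mul, zero_mul, add_zero]
    have h3 : |-((ε : ℝ) * c) - r| ≤ |(c : ℝ)| + 1 := by
      refine (abs_sub _ _).trans ?_
      rw [abs_neg, abs_mul, hεabs, one_mul]
      linarith
    nlinarith
  · rw [Fin.sum_univ_three]
    simp only [Matrix.of_apply, Matrix.cons_val_zero, Matrix.cons_val_one, Matrix.cons_val, Int.cast_sub, Int.cast_neg,
      Int.cast_mul]
    have h3 : |-(t : ℝ) - r * (ε * c) - r| ≤ |(t : ℝ)| + |(c : ℝ)| + 1 := by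
      refine (abs_sub _ _).trans ?_
      have h4 : |-(t : ℝ) - r * (ε * c)| ≤ |(t : ℝ)| + |(c : ℝ)| := by
        refine (abs_sub _ _).trans ?_
        rw [abs_neg, abs_mul, abs_mul, hεabs, one_mul]
        have : |(r : ℝ)| * |(c : ℝ)| ≤ 1 * |(c : ℝ)| := mul_le_mul_of_nonneg_right hrabs (abs_nonneg _)
        linarith
      linarith
    have h5 : |-(t : ℝ) - r * (ε * c) - r| * h 0 ≤ (|(t : ℝ)| + |(c : ℝ)| + 1) * h 0 :=
      mul_le_mul_of_nonneg_right h3 hp0.le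
    have h6 : |(r : ℝ)| * h 1 ≤ 1 * h 1 := mul_le_mul_of_nonneg_right hrabs hp1.le
    rw [hεabs]
    nlinarith

theorem nf (hN : S_NRM) : S_NF := by
  classical
  have hch : ∀ G : Matrix (Fin 3) (Fin 3) ℤ, ∃ U : Matrix (Fin 3) (Fin 3) ℤ, G.IsSymm → G.det = -1 →
      (∃ v : Fin 3 → ℤ, 0 < v ⬝ᵥ G *ᵥ v) → IsUnit U.det ∧ U * G * Uᵀ = JJ := by
    intro G
    by_cases h : G.IsSymm ∧ G.det = -1 ∧ ∃ v : Fin 3 → ℤ, 0 < v ⬝ᵥ G *ᵥ v
    · obtain ⟨U, hU⟩ := hN G h.1 h.2.1 h.2.2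
      exact ⟨U, fun _ _ _ => hU⟩
    · exact ⟨0, fun h1 h2 h3 => absurd ⟨h1, h2, h3⟩ h⟩
  choose U hU using hch
  obtain ⟨B, hB⟩ : ∃ B : ℤ, B = 512 * 512 := ⟨_, rfl⟩
  obtain ⟨S, hS⟩ : ∃ S : Finset (Fin 3 → Fin 3 → ℤ), S = Fintype.piFinset (fun _ : Fin 3 =>
    Fintype.piFinset (fun _ : Fin 3 => Finset.Icc (-B) B)) := ⟨_, rfl⟩
  obtain ⟨C, hC⟩ : ∃ C : ℝ, C = ∑ G ∈ S, ∑ i, ∑ j, |(U (Matrix.of G) i j : ℝ)| := ⟨_, rfl⟩
  have hC0 : 0 ≤ C := by
    rw [hC]
    exact Finset.sum_nonneg fun G _ => Finset.sum_nonneg fun i _ => Finset.sum_nonneg fun j _ => abs_nonneg _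
  refine ⟨86 + 1536 * C, by positivity, ?_⟩
  intro G h hs hd hv hp hm h8 hG
  by_cases h0 : h 0 < 1 / 8
  · obtain ⟨m, V, h1, h2, h3, h4, h5⟩ := case2 G h hs hd hp hm h8 hG h0
    have hP : (0 : ℝ) < 2 ^ m := by positivity
    refine ⟨m, V, h1, h2, h3.trans ?_, h4.trans (by linarith), h5.trans ?_⟩
    · exact div_le_div_of_nonneg_right (by linarith) hP.le
    · exact mul_le_mul_of_nonneg_right (by linarith) hP.le
  · push Not at h0
    have h01 : h 0 ≤ h 1 := hm (by decide)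
    have h12 : h 1 ≤ h 2 := hm (by decide)
    have hp0 := hp 0
    have hp1 := hp 1
    have hp2 := hp 2
    have h2le : h 2 ≤ 512 := by
      have e1 : (1 / 8) * (1 / 8) ≤ h 0 * h 1 := mul_le_mul h0 (h0.trans h01) (by norm_num) hp0.le
      have e2 : (1 / 8) * (1 / 8) * h 2 ≤ h 0 * h 1 * h 2 := mul_le_mul_of_nonneg_right e1 hp2.le
      linarith
    have hle : ∀ i, h i ≤ 512 := by
      intro i
      fin_cases i
      · exact h01.trans (h12.trans h2le)
      · exact h12.trans h2le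
      · exact h2le
    have hmem : (fun i j => G i j) ∈ S := by
      rw [hS, Fintype.mem_piFinset]
      intro i
      rw [Fintype.mem_piFinset]
      intro j
      have e1 : |(G i j : ℝ)| ≤ 512 * 512 :=
        (hG i j).trans (mul_le_mul (hle i) (hle j) (hp j).le (by norm_num))
      have e2 : |G i j| ≤ B := by
        rw [hB]
        exact_mod_cast e1
      rw [Finset.mem_Icc]
      exact abs_le.1 e2
    have hGe : Matrix.of (fun i j => G i j) = G := by
      ext i j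
      rfl
    have hle2 : ∀ i j, |(U G i j : ℝ)| ≤ C := by
      intro i j
      have e1 : |(U G i j : ℝ)| ≤ ∑ i, ∑ j, |(U G i j : ℝ)| := by
        refine le_trans ?_ (Finset.single_le_sum (f := fun i => ∑ j, |(U G i j : ℝ)|)
          (fun i _ => Finset.sum_nonneg fun j _ => abs_nonneg _) (Finset.mem_univ i))
        exact Finset.single_le_sum (f := fun j => |(U G i j : ℝ)|) (fun j _ => abs_nonneg _) (Finset.mem_univ j)
      refine e1.trans ?_
      have e2 := Finset.single_le_sum (f := fun G => ∑ i, ∑ j, |(U (Matrix.of G) i j : ℝ)|)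
        (fun G _ => Finset.sum_nonneg fun i _ => Finset.sum_nonneg fun j _ => abs_nonneg _) hmem
      rw [hC]
      simp only [hGe] at e2
      exact e2
    obtain ⟨h1, h2⟩ := hU G hs hd hv
    have hrow : ∀ i, ∑ j, |(U G i j : ℝ)| * h j ≤ 1536 * C := by
      intro i
      rw [Fin.sum_univ_three]
      have e : ∀ j, |(U G i j : ℝ)| * h j ≤ C * 512 := fun j =>
        mul_le_mul (hle2 i j) (hle j) (hp j).le hC0
      have := e 0
      have := e 1
      have := e 2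
      linarith
    refine ⟨0, U G, h1, h2, ?_, ?_, ?_⟩
    · rw [pow_zero, div_one]
      linarith [hrow 0]
    · linarith [hrow 1]
    · rw [pow_zero, mul_one]
      linarith [hrow 2]

end Pool.Agent.N368.PQ
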